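import Pool.Agent.Helper24.AL.St
import Pool.Agent.Helper56.SW.M_AP
import Pool.Agent.Helper56.SW.M_Fac

/-!
# Module PAIR of project AL (MP_e188f1_nt): pairs of vectors with congruent products
-/

set_option autoImplicit false

namespace Pool.Agent.Helper78.AL

open Finset
open Pool.Agent.Helper24.AL
open Pool.Agent.Helper56.SW (τ I mem_I stMul mFac_idiv mFac_card mFac_mem)

/-- module PAIR -/
theorem hPAIR : StPAIR := by
  intro c A1 B1 A2 B2 F X D hc hF h12 h21 hD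
  classical
  set M : Finset ℤ := (I X).filter fun m => m ≠ 0 ∧ (F : ℤ) ∣ m with hM
  set K : Finset ℤ := (I (2 * X)).filter fun e => e ≠ 0 ∧ (c : ℤ) ∣ e with hK
  set Bs : Finset (ℤ × ℤ) := (M ×ˢ K).filter fun q => q.1 + q.2 ≠ 0 ∧ |q.1 + q.2| ≤ (X : ℤ) with hBs
  have hMc : (M.card : ℝ) ≤ 2 * X / F := by
    refine stMul X F M hF (filter_subset _ _) ?_
    intro x hx
    rw [hM, mem_filter] at hx
    exact hx.2
  have hKc : (K.card : ℝ) ≤ 2 * ((2 * X : ℕ) : ℝ) / c := by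
    refine stMul (2 * X) c K hc (filter_subset _ _) ?_
    intro x hx
    rw [hK, mem_filter] at hx
    exact hx.2
  have h1 : (PR c A1 B1 A2 B2 F).card ≤
      (Bs.sigma fun q => mFac_idiv (q.1 + q.2) ×ˢ mFac_idiv q.1).card := by
    refine card_le_card_of_injOn (fun p : (ℤ × ℤ) × (ℤ × ℤ) =>
      (⟨(p.2.1 * p.1.2, p.1.1 * p.2.2 - p.2.1 * p.1.2), (p.1.1, p.2.1)⟩ : (_ : ℤ × ℤ) × (ℤ × ℤ))) ?_ ?_
    · rintro ⟨⟨t1, b1⟩, ⟨t2, b2⟩⟩ hp
      have hp' : ((t1, b1), (t2, b2)) ∈ PR c A1 B1 A2 B2 F := hp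
      unfold PR at hp'
      rw [mem_filter, mem_product, mem_product, mem_product, mem_I, mem_I, mem_I, mem_I] at hp'
      obtain ⟨⟨⟨ht1, hb1⟩, ⟨ht2, hb2⟩⟩, nt1, nb1, nt2, nb2, hcd, hne, hF1, hF2⟩ := hp'
      simp only at ht1 hb1 ht2 hb2 nt1 nb1 nt2 nb2 hcd hne hF1 hF2
      have e1 : |t1 * b2| ≤ (X : ℤ) := by
        rw [abs_mul]
        calc |t1| * |b2| ≤ (A1 : ℤ) * (B2 : ℤ) :=
              mul_le_mul ht1 hb2 (abs_nonneg _) (by positivity)
          _ ≤ (X : ℤ) := by exact_mod_cast h12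
      have e2 : |t2 * b1| ≤ (X : ℤ) := by
        rw [abs_mul]
        calc |t2| * |b1| ≤ (A2 : ℤ) * (B1 : ℤ) :=
              mul_le_mul ht2 hb1 (abs_nonneg _) (by positivity)
          _ ≤ (X : ℤ) := by exact_mod_cast h21
      have hs : t2 * b1 + (t1 * b2 - t2 * b1) = t1 * b2 := by ring
      refine mem_coe.2 (mem_sigma.2 ⟨?_, mem_product.2 ⟨?_, ?_⟩⟩)
      · rw [hBs, mem_filter, mem_product, hM, hK, mem_filter, mem_filter, mem_I, mem_I]
        simp only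
        rw [hs]
        refine ⟨⟨⟨e2, mul_ne_zero nt2 nb1, hF2⟩, ⟨?_, sub_ne_zero.2 hne, hcd⟩⟩,
          mul_ne_zero nt1 nb2, e1⟩
        have e3 := abs_sub (t1 * b2) (t2 * b1)
        push_cast
        linarith
      · simp only
        rw [hs]
        exact mFac_mem (mul_ne_zero nt1 nb2) (Dvd.intro _ rfl)
      · exact mFac_mem (mul_ne_zero nt2 nb1) (Dvd.intro _ rfl)
    · rintro ⟨⟨t1, b1⟩, ⟨t2, b2⟩⟩ hp ⟨⟨t1', b1'⟩, ⟨t2', b2'⟩⟩ hq hpq
      have hp' : ((t1, b1), (t2, b2)) ∈ PR c A1 B1 A2 B2 F := hp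
      unfold PR at hp'
      rw [mem_filter] at hp'
      obtain ⟨-, nt1, nb1, nt2, nb2, -⟩ := hp'
      simp only at nt1 nb1 nt2 nb2
      simp only [Sigma.mk.injEq, heq_eq_eq, Prod.mk.injEq] at hpq
      obtain ⟨⟨h2, h3⟩, h4, h5⟩ := hpq
      subst h4
      subst h5
      have h6 : b1 = b1' := mul_left_cancel₀ nt2 h2
      subst h6
      have h7 : t1 * b2 = t1 * b2' := by linarith
      have h8 : b2 = b2' := mul_left_cancel₀ nt1 h7
      subst h8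
      rfl
  rw [card_sigma] at h1
  have h2 : ((PR c A1 B1 A2 B2 F).card : ℝ) ≤
      ∑ q ∈ Bs, (((mFac_idiv (q.1 + q.2) ×ˢ mFac_idiv q.1).card : ℕ) : ℝ) := by exact_mod_cast h1
  have h3 : ∀ q ∈ Bs, (((mFac_idiv (q.1 + q.2) ×ˢ mFac_idiv q.1).card : ℕ) : ℝ) ≤ 4 * D ^ 2 := by
    intro q hq
    rw [hBs, mem_filter, mem_product, hM, mem_filter, mem_I] at hq
    obtain ⟨⟨⟨q1, q2, -⟩, -⟩, q3, q4⟩ := hq
    rw [card_product, Nat.cast_mul]
    have a1 := mFac_card (q.1 + q.2)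
    have a2 := mFac_card q.1
    have b1 : τ (q.1 + q.2).natAbs ≤ D := by
      refine hD _ (Nat.one_le_iff_ne_zero.2 (Int.natAbs_ne_zero.2 q3)) ?_
      have : ((q.1 + q.2).natAbs : ℤ) ≤ (X : ℤ) := by
        rw [Int.natCast_natAbs]
        exact q4
      exact_mod_cast this
    have b2 : τ q.1.natAbs ≤ D := by
      refine hD _ (Nat.one_le_iff_ne_zero.2 (Int.natAbs_ne_zero.2 q2)) ?_
      have : (q.1.natAbs : ℤ) ≤ (X : ℤ) := by
        rw [Int.natCast_natAbs]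
        exact q1
      exact_mod_cast this
    have c1 : (0 : ℝ) ≤ ((mFac_idiv (q.1 + q.2)).card : ℝ) := Nat.cast_nonneg _
    have c2 : (0 : ℝ) ≤ ((mFac_idiv q.1).card : ℝ) := Nat.cast_nonneg _
    have d1 : ((mFac_idiv (q.1 + q.2)).card : ℝ) ≤ 2 * D := by linarith
    have d2 : ((mFac_idiv q.1).card : ℝ) ≤ 2 * D := by linarith
    calc ((mFac_idiv (q.1 + q.2)).card : ℝ) * ((mFac_idiv q.1).card : ℝ)
        ≤ (2 * D) * (2 * D) := mul_le_mul d1 d2 c2 (c1.trans d1)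
      _ = 4 * D ^ 2 := by ring
  have h4 : (Bs.card : ℝ) ≤ (M.card : ℝ) * K.card := by
    have : Bs.card ≤ M.card * K.card := by
      rw [← card_product]
      exact card_le_card (filter_subset _ _)
    exact_mod_cast this
  have hF0 : (0 : ℝ) < F := by exact_mod_cast hF
  have hc0 : (0 : ℝ) < c := by exact_mod_cast hc
  have h5 : (M.card : ℝ) * K.card ≤ (2 * X / F) * (2 * ((2 * X : ℕ) : ℝ) / c) :=
    mul_le_mul hMc hKc (Nat.cast_nonneg _) (by positivity)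
  calc ((PR c A1 B1 A2 B2 F).card : ℝ)
      ≤ ∑ q ∈ Bs, (((mFac_idiv (q.1 + q.2) ×ˢ mFac_idiv q.1).card : ℕ) : ℝ) := h2
    _ ≤ ∑ _q ∈ Bs, 4 * D ^ 2 := sum_le_sum h3
    _ = (Bs.card : ℝ) * (4 * D ^ 2) := by rw [sum_const, nsmul_eq_mul]
    _ ≤ ((2 * X / F) * (2 * ((2 * X : ℕ) : ℝ) / c)) * (4 * D ^ 2) :=
        mul_le_mul_of_nonneg_right (h4.trans h5) (by positivity)
    _ = 32 * D ^ 2 * (X : ℝ) ^ 2 / (F * c) := by
        push_cast
        field_simp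
        ring

end Pool.Agent.Helper78.AL
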